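import Pool.Agent.N557.CV.Stm

set_option autoImplicit false

/-! Project CV (helper557), leaf PP: a free subgroup gives ping-pong (helper300). -/

namespace Pool.Agent.N300.CV

open Pool.Agent.N557.CV

/-- the first generator -/
def A : Equiv.Perm (ℤ × ℤ) where
  toFun q := (q.1 + 2 * q.2, q.2)
  invFun q := (q.1 - 2 * q.2, q.2)
  left_inv q := by
    ext <;> simp
  right_inv q := by
    ext <;> simp

/-- the second generator -/
def B : Equiv.Perm (ℤ × ℤ) where
  toFun q := (q.1, q.2 + (2 * q.1 + 1))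
  invFun q := (q.1, q.2 - (2 * q.1 + 1))
  left_inv q := by
    ext <;> simp
  right_inv q := by
    ext <;> simp

theorem A_zpow (k : ℤ) (q : ℤ × ℤ) : (A ^ k) q = (q.1 + 2 * k * q.2, q.2) := by
  induction k using Int.induction_on generalizing q with
  | zero => simp
  | succ n ih =>
    rw [zpow_add_one, Equiv.Perm.mul_apply, ih]
    change (q.1 + 2 * q.2 + 2 * n * q.2, q.2) = _
    ext
    · push_cast; ring
    · rfl
  | pred n ih =>
    rw [zpow_sub_one, Equiv.Perm.mul_apply, ih]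
    change (q.1 - 2 * q.2 + 2 * (-n) * q.2, q.2) = _
    ext
    · push_cast; ring
    · rfl

theorem B_zpow (k : ℤ) (q : ℤ × ℤ) : (B ^ k) q = (q.1, q.2 + k * (2 * q.1 + 1)) := by
  induction k using Int.induction_on generalizing q with
  | zero => simp
  | succ n ih =>
    rw [zpow_add_one, Equiv.Perm.mul_apply, ih]
    change (q.1, q.2 + (2 * q.1 + 1) + n * (2 * q.1 + 1)) = _
    ext
    · rfl
    · push_cast; ring
  | pred n ih =>
    rw [zpow_sub_one, Equiv.Perm.mul_apply, ih]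
    change (q.1, q.2 - (2 * q.1 + 1) + (-n) * (2 * q.1 + 1)) = _
    ext
    · rfl
    · push_cast; ring

theorem key (X Y k : ℤ) (hk : k ≠ 0) (h : |X| < |Y|) : |Y| < |X + 2 * k * Y| := by
  have h1 : 1 ≤ |k| := Int.one_le_abs hk
  have h2 : |2 * k * Y| = 2 * (|k| * |Y|) := by
    rw [abs_mul, abs_mul, abs_two, mul_assoc]
  have h3 : |Y| ≤ |k| * |Y| := le_mul_of_one_le_left (abs_nonneg Y) h1
  have h4 : |2 * k * Y| ≤ |X + 2 * k * Y| + |X| := by
    calc |2 * k * Y| = |(X + 2 * k * Y) - X| := by ring_nf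
      _ ≤ _ := abs_sub _ _
  linarith

/-- the ping-pong set -/
def Q (q : ℤ × ℤ) : Prop := |2 * q.2| < |2 * q.1 + 1|

theorem ping (k : ℤ) (hk : k ≠ 0) (q : ℤ × ℤ) (h : ¬ Q q) : Q ((A ^ k) q) := by
  rw [A_zpow]
  unfold Q at h ⊢
  have h1 : |2 * q.1 + 1| < |2 * q.2| := by
    rcases abs_cases (2 * q.1 + 1) with h2 | h2 <;> rcases abs_cases (2 * q.2) with h3 | h3 <;>
      omega
  have h2 := key (2 * q.1 + 1) (2 * q.2) k hk h1
  have h3 : 2 * q.1 + 1 + 2 * k * (2 * q.2) = 2 * (q.1 + 2 * k * q.2) + 1 := by ring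
  rw [h3] at h2
  exact h2

theorem pong (k : ℤ) (hk : k ≠ 0) (q : ℤ × ℤ) (h : Q q) : ¬ Q ((B ^ k) q) := by
  rw [B_zpow]
  unfold Q at h ⊢
  have h2 := key (2 * q.2) (2 * q.1 + 1) k hk h
  have h3 : 2 * q.2 + 2 * k * (2 * q.1 + 1) = 2 * (q.2 + k * (2 * q.1 + 1)) := by ring
  rw [h3] at h2
  exact not_lt.2 h2.le

theorem t_pp : S_PP := by
  intro G _ φ hφ
  classical
  let r : G → G := fun x => Quotient.out (Quotient.mk (QuotientGroup.rightRel φ.range) x)
  have hr : ∀ x, x * (r x)⁻¹ ∈ φ.range := by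
    intro x
    have h1 : (QuotientGroup.rightRel φ.range) (r x) x :=
      Quotient.exact (Quotient.out_eq (Quotient.mk (QuotientGroup.rightRel φ.range) x))
    rwa [QuotientGroup.rightRel_apply] at h1
  have hr2 : ∀ w x, r (φ w * x) = r x := by
    intro w x
    have h1 : Quotient.mk (QuotientGroup.rightRel φ.range) (φ w * x) =
        Quotient.mk (QuotientGroup.rightRel φ.range) x := by
      refine Quotient.sound ?_
      change (QuotientGroup.rightRel φ.range) _ _
      rw [QuotientGroup.rightRel_apply]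
      refine ⟨w⁻¹, ?_⟩
      rw [map_inv, mul_inv_rev, ← mul_assoc, mul_inv_cancel, one_mul]
    exact congrArg Quotient.out h1
  choose h hh using hr
  have hh2 : ∀ w x, h (φ w * x) = w * h x := by
    intro w x
    apply hφ
    rw [hh, hr2, map_mul, hh, mul_assoc]
  let rho : FreeGroup (Fin 2) →* Equiv.Perm (ℤ × ℤ) := FreeGroup.lift ![A, B]
  have rA : ∀ k : ℤ, rho (FreeGroup.of 0 ^ k) = A ^ k := fun k => by
    rw [map_zpow]
    congr 1
  have rB : ∀ k : ℤ, rho (FreeGroup.of 1 ^ k) = B ^ k := fun k => by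
    rw [map_zpow]
    congr 1
  refine ⟨fun x => Q (rho (h x) (0, 0)), fun k x hk hx => ?_, fun k x hk hx => ?_⟩
  · show Q (rho (h (φ (FreeGroup.of 0) ^ k * x)) (0, 0))
    rw [← map_zpow, hh2, map_mul, rA, Equiv.Perm.mul_apply]
    exact ping k hk _ hx
  · show ¬ Q (rho (h (φ (FreeGroup.of 1) ^ k * x)) (0, 0))
    rw [← map_zpow, hh2, map_mul, rB, Equiv.Perm.mul_apply]
    exact pong k hk _ hx

end Pool.Agent.N300.CV
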